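import Pool.Agent.Helper30.BSP.Defs
import Pool.Agent.RB.Strict

/-! The partition complexity of a set of rectangles and its maximum. -/

namespace Pool.Agent.Helper33.BSPL

open Pool.Agent.Helper30.BSP

/-- `k` is the axis-aligned partition complexity of `S`: the least size of an axis-aligned binary
space partition of `S` in which every cell that is cut meets at least two elements of `S`. -/
def Complexity (S : Finset Rect) (k : ℕ) : Prop :=
  IsLeast {j : ℕ | ∃ T : Tree, IsBSP S T Set.univ ∧ Pool.RB.Strict S T Set.univ ∧
    size S T Set.univ = j} k

/-- `m` is the greatest axis-aligned partition complexity of a set of `n` pairwise disjoint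
axis-aligned rectangles. -/
def MaxComplexity (n m : ℕ) : Prop :=
  IsGreatest {k : ℕ | ∃ S : Finset Rect, S.card = n ∧
    (S : Set Rect).PairwiseDisjoint Rect.toSet ∧ Complexity S k} m

end Pool.Agent.Helper33.BSPL
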