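import Pool.Agent.Helper33.BSPL.Defs
import Pool.Agent.RB.Main

/-! Superadditivity of the maximal partition complexity and the limit. -/

namespace Pool.Agent.Helper33.BSPL

open Pool.Agent.Helper30.BSP
open Filter Topology

/-- translation of a rectangle by `(t, t)` -/
def shR (t : ℝ) (R : Rect) : Rect :=
  ⟨R.a1 + t, R.b1 + t, R.a2 + t, R.b2 + t, by linarith [R.lt1], by linarith [R.lt2]⟩

/-- translation of a cell -/
def shC (t : ℝ) (C : Set (ℝ × ℝ)) : Set (ℝ × ℝ) := {p | (p.1 - t, p.2 - t) ∈ C}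

/-- translation of a tree -/
noncomputable def shT (t : ℝ) : Tree → Tree
  | .leaf => .leaf
  | .vert c l r => .vert (c + t) (shT t l) (shT t r)
  | .horiz c l r => .horiz (c + t) (shT t l) (shT t r)

theorem shR_shR (t : ℝ) (R : Rect) : shR (-t) (shR t R) = R := by
  cases R
  simp [shR]

theorem shR_inj (t : ℝ) : Function.Injective (shR t) := by
  intro a b h
  have := congrArg (shR (-t)) h
  rwa [shR_shR, shR_shR] at this

theorem shC_univ (t : ℝ) : shC t Set.univ = Set.univ := by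
  ext p; simp [shC]

theorem shC_vl (t c : ℝ) (C : Set (ℝ × ℝ)) :
    shC t (C ∩ {p | p.1 ≤ c}) = shC t C ∩ {p | p.1 ≤ c + t} := by
  ext p; simp [shC]

theorem shC_vr (t c : ℝ) (C : Set (ℝ × ℝ)) :
    shC t (C ∩ {p | c ≤ p.1}) = shC t C ∩ {p | c + t ≤ p.1} := by
  ext p; simp [shC, le_sub_iff_add_le]

theorem shC_hl (t c : ℝ) (C : Set (ℝ × ℝ)) :
    shC t (C ∩ {p | p.2 ≤ c}) = shC t C ∩ {p | p.2 ≤ c + t} := by
  ext p; simp [shC]

theorem shC_hr (t c : ℝ) (C : Set (ℝ × ℝ)) :
    shC t (C ∩ {p | c ≤ p.2}) = shC t C ∩ {p | c + t ≤ p.2} := by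
  ext p; simp [shC, le_sub_iff_add_le]

/-- the homeomorphism `p ↦ p - (t, t)` -/
noncomputable def hm (t : ℝ) : (ℝ × ℝ) ≃ₜ (ℝ × ℝ) := Homeomorph.addRight (-t, -t)

theorem shC_eq (t : ℝ) (C : Set (ℝ × ℝ)) : shC t C = hm t ⁻¹' C := by
  ext p
  simp only [shC, hm, Set.mem_ofPred_eq, Set.mem_preimage, Homeomorph.coe_addRight]
  have : (p.1 - t, p.2 - t) = p + (-t, -t) := by
    ext <;> simp [sub_eq_add_neg]
  rw [this]

theorem int_shC (t : ℝ) (C : Set (ℝ × ℝ)) : interior (shC t C) = shC t (interior C) := by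
  rw [shC_eq, shC_eq, Homeomorph.preimage_interior]

theorem shR_toSet (t : ℝ) (R : Rect) : (shR t R).toSet = shC t R.toSet := by
  ext p
  simp only [shR, Rect.toSet, shC, Set.mem_prod, Set.mem_Icc, Set.mem_ofPred_eq]
  constructor
  · rintro ⟨⟨h1, h2⟩, h3, h4⟩
    exact ⟨⟨by linarith, by linarith⟩, by linarith, by linarith⟩
  · rintro ⟨⟨h1, h2⟩, h3, h4⟩
    exact ⟨⟨by linarith, by linarith⟩, by linarith, by linarith⟩

theorem mem_shC_add (t : ℝ) (C : Set (ℝ × ℝ)) (p : ℝ × ℝ) :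
    (p.1 + t, p.2 + t) ∈ shC t C ↔ p ∈ C := by
  simp [shC]

theorem meets_sh (t : ℝ) (R : Rect) (C : Set (ℝ × ℝ)) :
    Meets (shR t R) (shC t C) ↔ Meets R C := by
  unfold Meets
  rw [shR_toSet, int_shC, int_shC]
  constructor
  · rintro ⟨p, h1, h2⟩
    exact ⟨(p.1 - t, p.2 - t), h1, h2⟩
  · rintro ⟨p, h1, h2⟩
    exact ⟨(p.1 + t, p.2 + t), (mem_shC_add t _ p).2 h1, (mem_shC_add t _ p).2 h2⟩

open Classical in
theorem isBSP_sh (S : Finset Rect) (t : ℝ) (T : Tree) : ∀ C : Set (ℝ × ℝ), IsBSP S T C →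
    IsBSP (S.image (shR t)) (shT t T) (shC t C) := by
  induction T with
  | leaf =>
    intro C h R hR R' hR' h1 h2
    obtain ⟨Q, hQ, rfl⟩ := Finset.mem_image.1 hR
    obtain ⟨Q', hQ', rfl⟩ := Finset.mem_image.1 hR'
    rw [meets_sh] at h1 h2
    rw [h Q hQ Q' hQ' h1 h2]
  | vert c l r ihl ihr =>
    intro C h
    obtain ⟨⟨p, hp, hpc⟩, hl, hr⟩ := h
    refine ⟨⟨(p.1 + t, p.2 + t), ?_, by simp [hpc]⟩, ?_, ?_⟩
    · rw [int_shC]; exact (mem_shC_add t _ p).2 hp
    · have := ihl _ hl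
      rwa [shC_vl] at this
    · have := ihr _ hr
      rwa [shC_vr] at this
  | horiz c l r ihl ihr =>
    intro C h
    obtain ⟨⟨p, hp, hpc⟩, hl, hr⟩ := h
    refine ⟨⟨(p.1 + t, p.2 + t), ?_, by simp [hpc]⟩, ?_, ?_⟩
    · rw [int_shC]; exact (mem_shC_add t _ p).2 hp
    · have := ihl _ hl
      rwa [shC_hl] at this
    · have := ihr _ hr
      rwa [shC_hr] at this

open Classical in
theorem size_sh (S : Finset Rect) (t : ℝ) (T : Tree) : ∀ C : Set (ℝ × ℝ),
    size (S.image (shR t)) (shT t T) (shC t C) = size S T C := by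
  induction T with
  | leaf =>
    intro C
    simp only [shT, size]
    have e : (S.image (shR t)).filter (fun R => Meets R (shC t C)) =
        (S.filter (fun R => Meets R C)).image (shR t) := by
      ext R
      simp only [Finset.mem_filter, Finset.mem_image]
      constructor
      · rintro ⟨⟨Q, hQ, rfl⟩, h⟩
        exact ⟨Q, ⟨hQ, (meets_sh t Q C).1 h⟩, rfl⟩
      · rintro ⟨Q, ⟨hQ, h⟩, rfl⟩
        exact ⟨⟨Q, hQ, rfl⟩, (meets_sh t Q C).2 h⟩
    rw [e, Finset.card_image_of_injective _ (shR_inj t)]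
  | vert c l r ihl ihr =>
    intro C
    simp only [shT, size]
    rw [← shC_vl, ← shC_vr, ihl, ihr]
  | horiz c l r ihl ihr =>
    intro C
    simp only [shT, size]
    rw [← shC_hl, ← shC_hr, ihl, ihr]

theorem isBSP_mono {S S' : Finset Rect} (hS : S ⊆ S') (T : Tree) : ∀ C : Set (ℝ × ℝ),
    IsBSP S' T C → IsBSP S T C := by
  induction T with
  | leaf => intro C h R hR R' hR'; exact h R (hS hR) R' (hS hR')
  | vert c l r ihl ihr => intro C h; exact ⟨h.1, ihl _ h.2.1, ihr _ h.2.2⟩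
  | horiz c l r ihl ihr => intro C h; exact ⟨h.1, ihl _ h.2.1, ihr _ h.2.2⟩

open Classical in
theorem size_union {S S' : Finset Rect} (hd : Disjoint S S') (T : Tree) : ∀ C : Set (ℝ × ℝ),
    size (S ∪ S') T C = size S T C + size S' T C := by
  induction T with
  | leaf =>
    intro C
    simp only [size]
    rw [Finset.filter_union, Finset.card_union_of_disjoint]
    exact Finset.disjoint_filter_filter hd
  | vert c l r ihl ihr => intro C; simp only [size]; rw [ihl, ihr]; ring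
  | horiz c l r ihl ihr => intro C; simp only [size]; rw [ihl, ihr]; ring

/-- the complexity is at most the size of any partition -/
theorem Complexity.le {S : Finset Rect} {k : ℕ} (h : Complexity S k) (T : Tree)
    (hT : IsBSP S T Set.univ) : k ≤ size S T Set.univ := by
  obtain ⟨T', h1, h2, h3⟩ := Pool.RB.qPrune S T Set.univ hT
  exact (h.2 ⟨T', h1, h2, rfl⟩).trans h3

theorem exists_complexity (S : Finset Rect) (hS : (S : Set Rect).PairwiseDisjoint Rect.toSet) :
    ∃ k, Complexity S k ∧ k ≤ 3 * S.card := by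
  have hex : ∃ T : Tree, IsBSP S T Set.univ ∧ Pool.RB.Strict S T Set.univ ∧
      size S T Set.univ ≤ 3 * S.card := by
    rcases S.eq_empty_or_nonempty with h | h
    · subst h
      exact ⟨.leaf, by intro R hR; simp at hR, trivial, by simp [size]⟩
    · obtain ⟨T, h1, h2, h3⟩ := Pool.RB.qReal S h hS
      exact ⟨T, h1, h2, by omega⟩
  obtain ⟨T, h1, h2, h3⟩ := hex
  have hne : {j : ℕ | ∃ T : Tree, IsBSP S T Set.univ ∧ Pool.RB.Strict S T Set.univ ∧
      size S T Set.univ = j}.Nonempty := ⟨_, T, h1, h2, rfl⟩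
  refine ⟨sInf {j : ℕ | ∃ T : Tree, IsBSP S T Set.univ ∧ Pool.RB.Strict S T Set.univ ∧
      size S T Set.univ = j}, ⟨Nat.sInf_mem hne, fun j hj => Nat.sInf_le hj⟩, ?_⟩
  have hm : size S T Set.univ ∈ {j : ℕ | ∃ T : Tree, IsBSP S T Set.univ ∧
      Pool.RB.Strict S T Set.univ ∧ size S T Set.univ = j} := ⟨T, h1, h2, rfl⟩
  exact (Nat.sInf_le hm).trans h3

/-- the rectangle `[2 i, 2 i + 1] × [0, 1]` -/
noncomputable def row (i : ℕ) : Rect := ⟨2 * i, 2 * i + 1, 0, 1, by linarith, by norm_num⟩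

open Classical in
theorem exists_set (n : ℕ) : ∃ S : Finset Rect, S.card = n ∧
    (S : Set Rect).PairwiseDisjoint Rect.toSet := by
  have hinj : Function.Injective row := by
    intro i j h
    have := congrArg Rect.a1 h
    simp only [row, mul_eq_mul_left_iff, Nat.cast_inj] at this
    rcases this with h | h
    · exact h
    · norm_num at h
  refine ⟨(Finset.range n).image row, ?_, ?_⟩
  · rw [Finset.card_image_of_injective _ hinj, Finset.card_range]
  · intro R hR R' hR' hne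
    simp only [Finset.coe_image, Set.mem_image, Finset.mem_coe, Finset.mem_range] at hR hR'
    obtain ⟨i, -, rfl⟩ := hR
    obtain ⟨j, -, rfl⟩ := hR'
    rw [Function.onFun, Set.disjoint_left]
    intro p hp hq
    simp only [row, Rect.toSet, Set.mem_prod, Set.mem_Icc] at hp hq
    apply hne
    have h1 : (2 * i : ℝ) < 2 * j + 2 := by linarith [hp.1.1, hq.1.2]
    have h2 : (2 * j : ℝ) < 2 * i + 2 := by linarith [hp.1.2, hq.1.1]
    have h3 : i < j + 1 := by
      have : (i : ℝ) < ((j + 1 : ℕ) : ℝ) := by push_cast; linarith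
      exact_mod_cast this
    have h4 : j < i + 1 := by
      have : (j : ℝ) < ((i + 1 : ℕ) : ℝ) := by push_cast; linarith
      exact_mod_cast this
    have : i = j := by omega
    rw [this]

theorem exists_max (n : ℕ) : ∃ m, MaxComplexity n m ∧ m ≤ 3 * n := by
  obtain ⟨S, hc, hd⟩ := exists_set n
  obtain ⟨k, hk, -⟩ := exists_complexity S hd
  have hne : {k : ℕ | ∃ S : Finset Rect, S.card = n ∧
      (S : Set Rect).PairwiseDisjoint Rect.toSet ∧ Complexity S k}.Nonempty :=
    ⟨k, S, hc, hd, hk⟩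
  have hub : ∀ j ∈ {k : ℕ | ∃ S : Finset Rect, S.card = n ∧
      (S : Set Rect).PairwiseDisjoint Rect.toSet ∧ Complexity S k}, j ≤ 3 * n := by
    rintro j ⟨S', hc', hd', hj⟩
    obtain ⟨k', hk', hle⟩ := exists_complexity S' hd'
    have : j = k' := hj.unique hk'
    rw [this, ← hc']
    exact hle
  have hb : BddAbove {k : ℕ | ∃ S : Finset Rect, S.card = n ∧
      (S : Set Rect).PairwiseDisjoint Rect.toSet ∧ Complexity S k} := ⟨3 * n, hub⟩
  exact ⟨_, ⟨Nat.sSup_mem hne hb, fun j hj => le_csSup hb hj⟩, hub _ (Nat.sSup_mem hne hb)⟩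

open Classical in
theorem superadd {m n a b c : ℕ} (ha : MaxComplexity m a) (hb : MaxComplexity n b)
    (hc : MaxComplexity (m + n) c) : a + b ≤ c := by
  obtain ⟨S, hSc, hSd, hSk⟩ := ha.1
  obtain ⟨S', hSc', hSd', hSk'⟩ := hb.1
  obtain ⟨t, ht⟩ : ∃ t : ℝ, ∀ R ∈ S, ∀ R' ∈ S', R.b1 < R'.a1 + t := by
    obtain ⟨M, hM⟩ := (S.image Rect.b1).finite_toSet.bddAbove
    obtain ⟨N, hN⟩ := (S'.image Rect.a1).finite_toSet.bddBelow
    refine ⟨M - N + 1, fun R hR R' hR' => ?_⟩
    have h1 : R.b1 ≤ M := hM (by simpa using ⟨R, hR, rfl⟩)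
    have h2 : N ≤ R'.a1 := hN (by simpa using ⟨R', hR', rfl⟩)
    linarith
  set Q := S'.image (shR t) with hQ
  have hcross : ∀ R ∈ S, ∀ R' ∈ Q, Disjoint R.toSet R'.toSet := by
    intro R hR R' hR'
    obtain ⟨P, hP, rfl⟩ := Finset.mem_image.1 hR'
    rw [Set.disjoint_left]
    intro p hp hq
    simp only [shR, Rect.toSet, Set.mem_prod, Set.mem_Icc] at hp hq
    linarith [ht R hR P hP, hp.1.2, hq.1.1]
  have hself : ∀ R : Rect, R.toSet.Nonempty := fun R =>
    ⟨(R.a1, R.a2), by simp [Rect.toSet, R.lt1.le, R.lt2.le]⟩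
  have hdis : Disjoint S Q := by
    rw [Finset.disjoint_left]
    intro R hR hR'
    obtain ⟨p, hp⟩ := hself R
    exact Set.disjoint_left.1 (hcross R hR R hR') hp hp
  have hQd : (Q : Set Rect).PairwiseDisjoint Rect.toSet := by
    intro R hR R' hR' hne
    simp only [hQ, Finset.coe_image, Set.mem_image, Finset.mem_coe] at hR hR'
    obtain ⟨P, hP, rfl⟩ := hR
    obtain ⟨P', hP', rfl⟩ := hR'
    have hne' : P ≠ P' := fun h => hne (by rw [h])
    have h0 := hSd' hP hP' hne'
    rw [Function.onFun, Set.disjoint_left] at h0 ⊢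
    intro p hp hq
    rw [shR_toSet] at hp hq
    exact h0 hp hq
  have hUd : ((S ∪ Q : Finset Rect) : Set Rect).PairwiseDisjoint Rect.toSet := by
    intro R hR R' hR' hne
    simp only [Finset.coe_union, Set.mem_union, Finset.mem_coe] at hR hR'
    rcases hR with hR | hR <;> rcases hR' with hR' | hR'
    · exact hSd hR hR' hne
    · exact hcross R hR R' hR'
    · exact (hcross R' hR' R hR).symm
    · exact hQd hR hR' hne
  obtain ⟨k, hk, -⟩ := exists_complexity (S ∪ Q) hUd
  have hcard : (S ∪ Q).card = m + n := by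
    rw [Finset.card_union_of_disjoint hdis, hSc, hQ,
      Finset.card_image_of_injective _ (shR_inj t), hSc']
  have hkc : k ≤ c := hc.2 ⟨S ∪ Q, hcard, hUd, hk⟩
  obtain ⟨T, hT, -, hTk⟩ := hk.1
  rw [size_union hdis] at hTk
  have h1 : a ≤ size S T Set.univ :=
    hSk.le T (isBSP_mono Finset.subset_union_left T _ hT)
  have hTQ : IsBSP Q T Set.univ := isBSP_mono Finset.subset_union_right T _ hT
  have hback : Q.image (shR (-t)) = S' := by
    rw [hQ, Finset.image_image]
    have : shR (-t) ∘ shR t = id := by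
      funext R; exact shR_shR t R
    rw [this, Finset.image_id]
  have h2' := isBSP_sh Q (-t) T Set.univ hTQ
  rw [hback, shC_univ] at h2'
  have h2 : b ≤ size S' (shT (-t) T) Set.univ := hSk'.le _ h2'
  have h3 := size_sh Q (-t) T Set.univ
  rw [hback, shC_univ] at h3
  omega

theorem main : ∃ (f : ℕ → ℕ) (L : ℝ), (∀ n, MaxComplexity n (f n)) ∧
    (∀ m n, f m + f n ≤ f (m + n)) ∧
    Tendsto (fun n : ℕ => (f n : ℝ) / n) atTop (𝓝 L) ∧
    IsLUB (Set.range fun n : ℕ => (f n : ℝ) / n) L := by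
  choose f hf hf3 using exists_max
  have hsup : ∀ m n, f m + f n ≤ f (m + n) := fun m n => superadd (hf m) (hf n) (hf (m + n))
  have hsub : Subadditive (fun n : ℕ => -(f n : ℝ)) := by
    intro m n
    have : (f m : ℝ) + f n ≤ f (m + n) := by exact_mod_cast hsup m n
    linarith
  have hb : BddBelow (Set.range fun n : ℕ => -(f n : ℝ) / n) := by
    refine ⟨-3, ?_⟩
    rintro x ⟨n, rfl⟩
    simp only
    rcases Nat.eq_zero_or_pos n with h | h
    · subst h; norm_num
    · have hn : (0 : ℝ) < n := by exact_mod_cast h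
      rw [le_div_iff₀ hn]
      have : (f n : ℝ) ≤ 3 * n := by exact_mod_cast hf3 n
      linarith
  have ht := hsub.tendsto_lim hb
  have ht' : Tendsto (fun n : ℕ => (f n : ℝ) / n) atTop (𝓝 (-hsub.lim)) := by
    have := ht.neg
    refine this.congr fun n => ?_
    rw [neg_div, neg_neg]
  refine ⟨f, -hsub.lim, hf, hsup, ht', ?_, ?_⟩
  · rintro x ⟨n, rfl⟩
    simp only
    rcases Nat.eq_zero_or_pos n with h | h
    · subst h
      have h0 : (0 : ℝ) ≤ -hsub.lim := ge_of_tendsto' ht' fun n => by positivity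
      simpa using h0
    · have := hsub.lim_le_div hb h.ne'
      rw [neg_div] at this
      linarith
  · intro b hb'
    exact le_of_tendsto' ht' fun n => hb' ⟨n, rfl⟩

end Pool.Agent.Helper33.BSPL
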